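import Mathlib

/-!
# Growth of the smallest largest entry of a distinct triangle of absolute differences

`M n` is the minimum, over all distinct TADs of order `n`, of the largest entry.
We prove `n (n - 1) / 4 * (log (n / 4) - 1) ≤ M n ≤ 75 n ^ 3` for every `n ≥ 1`.
-/

namespace Pool.Agent.Results.MP_5d3fca_co.GrowthBounds

open Finset

/-- `(i, j)` is a position of a triangle of order `n` (rows and columns start at `1`;
row `i` has `n - i + 1` entries). -/
def InTri (n i j : ℕ) : Prop := 1 ≤ i ∧ 1 ≤ j ∧ i + j ≤ n + 1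

/-- `a` is a distinct triangle of absolute differences (TAD) of order `n`: all entries are positive
integers, every entry below the top row is the absolute difference of the two entries directly
above it, and the entries are pairwise distinct. -/
def IsDistinctTAD (n : ℕ) (a : ℕ → ℕ → ℕ) : Prop :=
  (∀ i j, InTri n i j → 0 < a i j) ∧
  (∀ i j, 1 ≤ i → i < n → 1 ≤ j → j ≤ n - i →
    (a (i + 1) j : ℤ) = |(a i j : ℤ) - (a i (j + 1) : ℤ)|) ∧
  (∀ i j i' j', InTri n i j → InTri n i' j' → a i j = a i' j' → i = i' ∧ j = j')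

/-- The set of the largest entries of the distinct TADs of order `n`. -/
def LargestEntries (n : ℕ) : Set ℕ :=
  {m | ∃ a : ℕ → ℕ → ℕ, IsDistinctTAD n a ∧ (∃ i j, InTri n i j ∧ a i j = m) ∧
    ∀ i j, InTri n i j → a i j ≤ m}

/-- The minimum over all distinct TADs of order `n` of the largest entry. -/
noncomputable def M (n : ℕ) : ℕ := sInf (LargestEntries n)

/-! ### The lower bound -/

/-- A positive function with small fibres has a large sum. -/
lemma sq_card_le {α : Type*} [DecidableEq α] (Z : Finset α) (f : α → ℕ) (t : ℕ)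
    (hpos : ∀ z ∈ Z, 0 < f z) (hfib : ∀ v, (Z.filter (fun z => f z = v)).card ≤ t) :
    Z.card ^ 2 ≤ 2 * t * ∑ z ∈ Z, f z := by
  have h1 : ∀ z ∈ Z, (Z.filter (fun w => f w ≤ f z)).card ≤ t * f z := by
    intro z _
    have := Finset.card_le_mul_card_image_of_maps_to (s := Z.filter (fun w => f w ≤ f z))
      (t := Finset.Icc 1 (f z)) (f := f) (by
        intro w hw
        rw [Finset.mem_filter] at hw
        rw [Finset.mem_Icc]
        exact ⟨hpos w hw.1, hw.2⟩) t (by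
        intro v _
        refine le_trans (Finset.card_le_card ?_) (hfib v)
        intro w hw
        rw [Finset.mem_filter, Finset.mem_filter] at hw
        rw [Finset.mem_filter]
        exact ⟨hw.1.1, hw.2⟩)
    simpa using this
  have h2 : ∀ z ∈ Z, Z.card ≤ (Z.filter (fun w => f w ≤ f z)).card +
      (Z.filter (fun w => f z ≤ f w)).card := by
    intro z _
    rw [← Finset.card_filter_add_card_filter_not (s := Z) (fun w => f w ≤ f z)]
    refine Nat.add_le_add_left (Finset.card_le_card ?_) _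
    intro w hw
    rw [Finset.mem_filter] at hw ⊢
    exact ⟨hw.1, le_of_lt (not_le.1 hw.2)⟩
  have h3 : ∑ z ∈ Z, (Z.filter (fun w => f z ≤ f w)).card =
      ∑ z ∈ Z, (Z.filter (fun w => f w ≤ f z)).card := by
    simp only [Finset.card_filter]
    rw [Finset.sum_comm]
  calc Z.card ^ 2 = ∑ z ∈ Z, Z.card := by rw [Finset.sum_const, smul_eq_mul]; ring
    _ ≤ ∑ z ∈ Z, ((Z.filter (fun w => f w ≤ f z)).card +
      (Z.filter (fun w => f z ≤ f w)).card) := Finset.sum_le_sum h2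
    _ = 2 * ∑ z ∈ Z, (Z.filter (fun w => f w ≤ f z)).card := by
      rw [Finset.sum_add_distrib, h3]; ring
    _ ≤ 2 * ∑ z ∈ Z, t * f z := Nat.mul_le_mul_left _ (Finset.sum_le_sum h1)
    _ = 2 * t * ∑ z ∈ Z, f z := by rw [← Finset.mul_sum]; ring

/-- Column of the `k`-th ancestor (always going to the larger parent) of position `(i, j)`;
this ancestor lies in row `i - k`. -/
def col (a : ℕ → ℕ → ℕ) : ℕ → ℕ → ℕ → ℕ
  | 0, _, j => j
  | k + 1, i, j =>
    if a (i - k - 1) (col a k i j + 1) < a (i - k - 1) (col a k i j) then col a k i j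
    else col a k i j + 1

/-- The smaller parent of the `k`-th ancestor of `(i, j)`. -/
def mv (a : ℕ → ℕ → ℕ) (k i j : ℕ) : ℕ :=
  min (a (i - k - 1) (col a k i j)) (a (i - k - 1) (col a k i j + 1))

lemma col_bounds (a : ℕ → ℕ → ℕ) (k i j : ℕ) : j ≤ col a k i j ∧ col a k i j ≤ j + k := by
  induction k with
  | zero => simp [col]
  | succ k ih =>
    rw [col]
    split_ifs <;> omega

lemma step {n : ℕ} {a : ℕ → ℕ → ℕ} (h : IsDistinctTAD n a) {k i j : ℕ} (hij : InTri n i j)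
    (hk : k + 2 ≤ i) :
    a (i - (k + 1)) (col a (k + 1) i j) = a (i - k) (col a k i j) + mv a k i j := by
  obtain ⟨h1, h2, h3⟩ := hij
  obtain ⟨hc1, hc2⟩ := col_bounds a k i j
  have hd := h.2.1 (i - k - 1) (col a k i j) (by omega) (by omega) (by omega) (by omega)
  have e1 : i - k - 1 + 1 = i - k := by omega
  have e2 : i - (k + 1) = i - k - 1 := by omega
  rw [e1] at hd
  rw [e2, mv, col]
  split_ifs with hlt
  · rw [min_eq_right hlt.le]
    rw [abs_of_nonneg (by omega)] at hd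
    omega
  · rw [not_lt] at hlt
    rw [min_eq_left hlt]
    rw [abs_of_nonpos (by omega)] at hd
    omega

lemma chain {n : ℕ} {a : ℕ → ℕ → ℕ} (h : IsDistinctTAD n a) {i j : ℕ} (hij : InTri n i j) (k : ℕ)
    (hk : k + 1 ≤ i) :
    a (i - k) (col a k i j) = a i j + ∑ l ∈ range k, mv a l i j := by
  induction k with
  | zero => simp [col]
  | succ k ih =>
    rw [step h hij (by omega), ih (by omega), Finset.sum_range_succ]
    ring

lemma chain_le {n m : ℕ} {a : ℕ → ℕ → ℕ} (h : IsDistinctTAD n a)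
    (hm : ∀ i j, InTri n i j → a i j ≤ m) {i j : ℕ} (hij : InTri n i j) :
    a i j + ∑ l ∈ range (i - 1), mv a l i j ≤ m := by
  have h1 : 1 ≤ i := hij.1
  rw [← chain h hij (i - 1) (by omega)]
  apply hm
  obtain ⟨hc1, hc2⟩ := col_bounds a (i - 1) i j
  obtain ⟨h1, h2, h3⟩ := hij
  refine ⟨by omega, by omega, by omega⟩

/-- positions in the rows `≥ k + 2` -/
def Z (n k : ℕ) : Finset (ℕ × ℕ) :=
  ((Finset.Icc (k + 2) n) ×ˢ (Finset.Icc 1 n)).filter (fun p => p.1 + p.2 ≤ n + 1)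

lemma mem_Z {n k : ℕ} {p : ℕ × ℕ} : p ∈ Z n k ↔ k + 2 ≤ p.1 ∧ InTri n p.1 p.2 := by
  unfold Z InTri
  rw [Finset.mem_filter, Finset.mem_product, Finset.mem_Icc, Finset.mem_Icc]
  omega

lemma sum_aux (d k : ℕ) :
    2 * ∑ i ∈ Finset.Icc (k + 2) (k + 1 + d), (k + 1 + d + 1 - i) = d * (d + 1) := by
  induction d generalizing k with
  | zero => simp
  | succ d ih =>
    have e : Finset.Icc (k + 2) (k + 1 + (d + 1)) =
        insert (k + 2) (Finset.Icc (k + 1 + 2) (k + 1 + 1 + d)) := by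
      ext x
      simp only [Finset.mem_Icc, Finset.mem_insert]
      omega
    rw [e, Finset.sum_insert (by simp)]
    have h := ih (k + 1)
    have e2 : ∀ i, k + 1 + (d + 1) + 1 - i = k + 1 + 1 + d + 1 - i := fun i => by omega
    simp only [e2]
    rw [mul_add, h]
    have e3 : k + 1 + 1 + d + 1 - (k + 2) = d + 1 := by omega
    rw [e3]
    ring

lemma card_Z {n k : ℕ} (hk : k + 1 ≤ n) : 2 * (Z n k).card = (n - k) * (n - k - 1) := by
  obtain ⟨d, rfl⟩ : ∃ d, n = k + 1 + d := ⟨n - (k + 1), by omega⟩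
  have e : (k + 1 + d - k) * (k + 1 + d - k - 1) = d * (d + 1) := by
    have e1 : k + 1 + d - k = d + 1 := by omega
    rw [e1]
    simp [mul_comm]
  rw [e, ← sum_aux d k]
  congr 1
  unfold Z
  rw [Finset.card_filter, Finset.sum_product]
  refine Finset.sum_congr rfl ?_
  intro i hi
  rw [Finset.mem_Icc] at hi
  rw [← Finset.card_filter]
  have : (Finset.Icc 1 (k + 1 + d)).filter (fun j => i + j ≤ k + 1 + d + 1) =
      Finset.Icc 1 (k + 1 + d + 1 - i) := by
    ext j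
    simp only [Finset.mem_filter, Finset.mem_Icc]
    omega
  rw [this]
  simp

lemma mv_eq (a : ℕ → ℕ → ℕ) (k i j : ℕ) :
    ∃ y, mv a k i j = a (i - k - 1) y ∧ j ≤ y ∧ y ≤ j + k + 1 := by
  obtain ⟨hc1, hc2⟩ := col_bounds a k i j
  unfold mv
  rcases le_total (a (i - k - 1) (col a k i j)) (a (i - k - 1) (col a k i j + 1)) with h | h
  · exact ⟨_, min_eq_left h, hc1, by omega⟩
  · exact ⟨_, min_eq_right h, by omega, by omega⟩

lemma fibre_mv {n : ℕ} {a : ℕ → ℕ → ℕ} (h : IsDistinctTAD n a) (k v : ℕ) :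
    ((Z n k).filter (fun p => mv a k p.1 p.2 = v)).card ≤ k + 2 := by
  rcases Finset.eq_empty_or_nonempty ((Z n k).filter (fun p => mv a k p.1 p.2 = v)) with h0 | ⟨p, hp⟩
  · rw [h0]; simp
  · rw [Finset.mem_filter, mem_Z] at hp
    obtain ⟨⟨hp1, hp2⟩, hpv⟩ := hp
    obtain ⟨y, hy, hy1, hy2⟩ := mv_eq a k p.1 p.2
    have hsub : (Z n k).filter (fun p => mv a k p.1 p.2 = v) ⊆
        (Finset.Icc (y - (k + 1)) y).image (fun j => (p.1, j)) := by
      intro q hq
      rw [Finset.mem_filter, mem_Z] at hq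
      obtain ⟨⟨hq1, hq2⟩, hqv⟩ := hq
      obtain ⟨x, hx, hx1, hx2⟩ := mv_eq a k q.1 q.2
      have hval : a (q.1 - k - 1) x = a (p.1 - k - 1) y := by rw [← hx, ← hy, hqv, hpv]
      obtain ⟨p21, p22, p23⟩ := hp2
      obtain ⟨q21, q22, q23⟩ := hq2
      obtain ⟨e1, e2⟩ := h.2.2 _ _ _ _ (⟨by omega, by omega, by omega⟩ : InTri n (q.1 - k - 1) x)
        (⟨by omega, by omega, by omega⟩ : InTri n (p.1 - k - 1) y) hval
      rw [Finset.mem_image]
      refine ⟨q.2, ?_, ?_⟩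
      · rw [Finset.mem_Icc]; omega
      · have : p.1 = q.1 := by omega
        rw [this]
    refine le_trans (Finset.card_le_card hsub) (le_trans Finset.card_image_le ?_)
    rw [Nat.card_Icc]
    omega

lemma mv_pos {n : ℕ} {a : ℕ → ℕ → ℕ} (h : IsDistinctTAD n a) {k : ℕ} {p : ℕ × ℕ}
    (hp : p ∈ Z n k) : 0 < mv a k p.1 p.2 := by
  rw [mem_Z] at hp
  obtain ⟨hp1, p21, p22, p23⟩ := hp
  obtain ⟨y, hy, hy1, hy2⟩ := mv_eq a k p.1 p.2
  rw [hy]
  exact h.1 _ _ ⟨by omega, by omega, by omega⟩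

/-- The double counting inequality. -/
lemma main_nat {n m : ℕ} {a : ℕ → ℕ → ℕ} (h : IsDistinctTAD n a)
    (hm : ∀ i j, InTri n i j → a i j ≤ m) :
    ∑ p ∈ Z n 0, a p.1 p.2 + ∑ k ∈ range (n - 1), ∑ p ∈ Z n k, mv a k p.1 p.2 ≤
      (Z n 0).card * m := by
  have e : ∑ k ∈ range (n - 1), ∑ p ∈ Z n k, mv a k p.1 p.2 =
      ∑ p ∈ Z n 0, ∑ k ∈ range (p.1 - 1), mv a k p.1 p.2 := by
    refine Finset.sum_comm' ?_
    intro k p
    rw [mem_Z, mem_Z, Finset.mem_range, Finset.mem_range]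
    unfold InTri
    omega
  rw [e, ← Finset.sum_add_distrib]
  calc ∑ p ∈ Z n 0, (a p.1 p.2 + ∑ k ∈ range (p.1 - 1), mv a k p.1 p.2) ≤ ∑ p ∈ Z n 0, m := by
        refine Finset.sum_le_sum ?_
        intro p hp
        rw [mem_Z] at hp
        exact chain_le h hm hp.2
    _ = (Z n 0).card * m := by rw [Finset.sum_const, smul_eq_mul]

lemma card_Z_real {n k : ℕ} (hk : k + 1 ≤ n) :
    ((Z n k).card : ℝ) = ((n : ℝ) - k) * ((n : ℝ) - k - 1) / 2 := by
  have h := card_Z hk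
  have h' : ((2 * (Z n k).card : ℕ) : ℝ) = (((n - k) * (n - k - 1) : ℕ) : ℝ) := by rw [h]
  rw [Nat.cast_mul, Nat.cast_mul, Nat.cast_sub (by omega : 1 ≤ n - k),
    Nat.cast_sub (by omega : k ≤ n)] at h'
  push_cast at h'
  linarith

/-- The lower bound for one triangle, in exact form. -/
lemma lower_sum {n m : ℕ} (hn : 2 ≤ n) {a : ℕ → ℕ → ℕ} (h : IsDistinctTAD n a)
    (hm : ∀ i j, InTri n i j → a i j ≤ m) :
    (n : ℝ) * ((n : ℝ) - 1) / 4 * (1 + ∑ k ∈ range (n - 1),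
      ((((n : ℝ) - k) * ((n : ℝ) - k - 1)) / ((n : ℝ) * ((n : ℝ) - 1))) ^ 2 / ((k : ℝ) + 2)) ≤ m := by
  have h1 := main_nat h hm
  have h2 : (Z n 0).card ^ 2 ≤ 2 * 1 * ∑ p ∈ Z n 0, a p.1 p.2 := by
    refine sq_card_le (Z n 0) (fun p => a p.1 p.2) 1 ?_ ?_
    · intro p hp
      rw [mem_Z] at hp
      exact h.1 _ _ hp.2
    · intro v
      rw [Finset.card_le_one]
      intro p hp q hq
      rw [Finset.mem_filter, mem_Z] at hp hq
      obtain ⟨e1, e2⟩ := h.2.2 _ _ _ _ hp.1.2 hq.1.2 (hp.2.trans hq.2.symm)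
      exact Prod.ext e1 e2
  have h3 : ∀ k ∈ range (n - 1), (Z n k).card ^ 2 ≤ 2 * (k + 2) * ∑ p ∈ Z n k, mv a k p.1 p.2 := by
    intro k _
    refine sq_card_le (Z n k) (fun p => mv a k p.1 p.2) (k + 2) ?_ ?_
    · intro p hp
      exact mv_pos h hp
    · intro v
      exact fibre_mv h k v
  have h1' : (∑ p ∈ Z n 0, (a p.1 p.2 : ℝ)) + ∑ k ∈ range (n - 1), ∑ p ∈ Z n k,
      (mv a k p.1 p.2 : ℝ) ≤ ((Z n 0).card : ℝ) * m := by exact_mod_cast h1
  have h2' : ((Z n 0).card : ℝ) ^ 2 ≤ 2 * ∑ p ∈ Z n 0, (a p.1 p.2 : ℝ) := by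
    have : (((Z n 0).card ^ 2 : ℕ) : ℝ) ≤ ((2 * 1 * ∑ p ∈ Z n 0, a p.1 p.2 : ℕ) : ℝ) := by
      exact_mod_cast h2
    push_cast at this
    linarith
  have h3' : ∀ k ∈ range (n - 1), ((Z n k).card : ℝ) ^ 2 / (2 * ((k : ℝ) + 2)) ≤
      ∑ p ∈ Z n k, (mv a k p.1 p.2 : ℝ) := by
    intro k hk
    have := h3 k hk
    have h4 : (((Z n k).card ^ 2 : ℕ) : ℝ) ≤ ((2 * (k + 2) * ∑ p ∈ Z n k, mv a k p.1 p.2 : ℕ) : ℝ) := by
      exact_mod_cast this
    push_cast at h4
    rw [div_le_iff₀ (by positivity)]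
    linarith
  have h4 := Finset.sum_le_sum h3'
  have hn' : (2 : ℝ) ≤ n := by exact_mod_cast hn
  have hz : ((Z n 0).card : ℝ) = (n : ℝ) * ((n : ℝ) - 1) / 2 := by
    rw [card_Z_real (by omega)]; push_cast; ring
  have hz0 : (0 : ℝ) < (n : ℝ) * ((n : ℝ) - 1) := by nlinarith
  have h5 : ∑ k ∈ range (n - 1), ((Z n k).card : ℝ) ^ 2 / (2 * ((k : ℝ) + 2)) =
      ((n : ℝ) * ((n : ℝ) - 1)) ^ 2 / 8 * ∑ k ∈ range (n - 1),
      ((((n : ℝ) - k) * ((n : ℝ) - k - 1)) / ((n : ℝ) * ((n : ℝ) - 1))) ^ 2 / ((k : ℝ) + 2) := by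
    rw [Finset.mul_sum]
    refine Finset.sum_congr rfl ?_
    intro k hk
    rw [Finset.mem_range] at hk
    rw [card_Z_real (by omega)]
    have hk2 : ((k : ℝ) + 2) ≠ 0 := by positivity
    have hn0 : (n : ℝ) ≠ 0 := by linarith
    have hn1 : ((n : ℝ) - 1) ≠ 0 := by
      have : (0 : ℝ) < (n : ℝ) - 1 := by linarith
      exact this.ne'
    field_simp
    ring
  rw [h5] at h4
  rw [hz] at h1' h2'
  have h6 : ((n : ℝ) * ((n : ℝ) - 1) / 2) * ((n : ℝ) * ((n : ℝ) - 1) / 4 * (1 + ∑ k ∈ range (n - 1),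
      ((((n : ℝ) - k) * ((n : ℝ) - k - 1)) / ((n : ℝ) * ((n : ℝ) - 1))) ^ 2 / ((k : ℝ) + 2))) ≤
      ((n : ℝ) * ((n : ℝ) - 1) / 2) * m := by
    nlinarith [h1', h2', h4]
  exact le_of_mul_le_mul_left h6 (by linarith)

lemma ratio_bound {n k : ℕ} (hn : 2 ≤ n) (hk : k + 1 ≤ n) :
    1 - 4 * (k : ℝ) / n ≤
      ((((n : ℝ) - k) * ((n : ℝ) - k - 1)) / ((n : ℝ) * ((n : ℝ) - 1))) ^ 2 := by
  have hn' : (2 : ℝ) ≤ n := by exact_mod_cast hn
  have hz0 : (0 : ℝ) < (n : ℝ) * ((n : ℝ) - 1) := by nlinarith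
  have hk0 : (0 : ℝ) ≤ k := Nat.cast_nonneg k
  have h1 : 1 - 2 * (k : ℝ) / n ≤
      (((n : ℝ) - k) * ((n : ℝ) - k - 1)) / ((n : ℝ) * ((n : ℝ) - 1)) := by
    rw [le_div_iff₀ hz0]
    have e : (1 - 2 * (k : ℝ) / n) * ((n : ℝ) * ((n : ℝ) - 1)) =
        (n : ℝ) * (n - 1) - 2 * k * (n - 1) := by
      field_simp
    rw [e]
    rcases Nat.eq_zero_or_pos k with h0 | h0
    · subst h0; simp
    · have : (1 : ℝ) ≤ k := by exact_mod_cast h0
      nlinarith
  set x : ℝ := (((n : ℝ) - k) * ((n : ℝ) - k - 1)) / ((n : ℝ) * ((n : ℝ) - 1)) with hx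
  have h2 : 1 - 4 * (k : ℝ) / n = 2 * (1 - 2 * (k : ℝ) / n) - 1 := by ring
  rw [h2]
  nlinarith [sq_nonneg (x - 1)]

/-- The logarithmic lower bound for one triangle. -/
lemma lower_log {n m : ℕ} (hn : 2 ≤ n) {a : ℕ → ℕ → ℕ} (h : IsDistinctTAD n a)
    (hm : ∀ i j, InTri n i j → a i j ≤ m) :
    (n : ℝ) * ((n : ℝ) - 1) / 4 * (Real.log ((n : ℝ) / 4) - 1) ≤ m := by
  refine le_trans ?_ (lower_sum hn h hm)
  have hn' : (2 : ℝ) ≤ n := by exact_mod_cast hn
  have hz0 : (0 : ℝ) < (n : ℝ) * ((n : ℝ) - 1) := by nlinarith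
  refine mul_le_mul_of_nonneg_left ?_ (by linarith)
  set K : ℕ := n / 4 with hK
  have hK1 : K ≤ n - 1 := by omega
  have hK2 : 4 * K ≤ n := by omega
  have hK3 : n ≤ 4 * K + 3 := by omega
  have h1 : ∑ k ∈ range K, (1 - 4 * (k : ℝ) / n) / ((k : ℝ) + 2) ≤ ∑ k ∈ range (n - 1),
      ((((n : ℝ) - k) * ((n : ℝ) - k - 1)) / ((n : ℝ) * ((n : ℝ) - 1))) ^ 2 / ((k : ℝ) + 2) := by
    refine le_trans (Finset.sum_le_sum (f := fun k : ℕ => (1 - 4 * (k : ℝ) / n) / ((k : ℝ) + 2))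
      (g := fun k : ℕ => ((((n : ℝ) - k) * ((n : ℝ) - k - 1)) / ((n : ℝ) * ((n : ℝ) - 1))) ^ 2 /
        ((k : ℝ) + 2)) ?_) ?_
    · intro k hk
      rw [Finset.mem_range] at hk
      exact div_le_div_of_nonneg_right (ratio_bound hn (by omega)) (by positivity)
    · refine Finset.sum_le_sum_of_subset_of_nonneg ?_ ?_
      · intro k hk
        rw [Finset.mem_range] at hk ⊢
        omega
      · intro k _ _
        positivity
  have h2 : (harmonic (K + 1) : ℝ) - 1 - 1 ≤ ∑ k ∈ range K, (1 - 4 * (k : ℝ) / n) / ((k : ℝ) + 2) := by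
    have e1 : (harmonic (K + 1) : ℝ) = 1 + ∑ k ∈ range K, 1 / ((k : ℝ) + 2) := by
      unfold harmonic
      push_cast
      rw [Finset.sum_range_succ', add_comm]
      congr 1
      · norm_num
      · refine Finset.sum_congr rfl ?_
        intro k _
        rw [one_div]
        congr 1
        push_cast
        ring
    have e2 : ∑ k ∈ range K, (1 - 4 * (k : ℝ) / n) / ((k : ℝ) + 2) =
        ∑ k ∈ range K, 1 / ((k : ℝ) + 2) - ∑ k ∈ range K, (4 * (k : ℝ) / n) / ((k : ℝ) + 2) := by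
      rw [← Finset.sum_sub_distrib]
      refine Finset.sum_congr rfl ?_
      intro k _
      rw [sub_div]
    have e3 : ∑ k ∈ range K, (4 * (k : ℝ) / n) / ((k : ℝ) + 2) ≤ 1 := by
      calc ∑ k ∈ range K, (4 * (k : ℝ) / n) / ((k : ℝ) + 2) ≤ ∑ k ∈ range K, (4 / (n : ℝ)) := by
            refine Finset.sum_le_sum ?_
            intro k _
            rw [div_le_iff₀ (by positivity)]
            have : 4 * (k : ℝ) / n = 4 / n * k := by ring
            rw [this]
            have h4 : (0 : ℝ) ≤ 4 / n := by positivity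
            nlinarith
        _ = (K : ℝ) * (4 / n) := by rw [Finset.sum_const, card_range, nsmul_eq_mul]
        _ ≤ 1 := by
            rw [← mul_div_assoc, div_le_one (by linarith)]
            have : ((4 * K : ℕ) : ℝ) ≤ n := by exact_mod_cast hK2
            push_cast at this
            linarith
    rw [e1, e2]
    linarith
  have h3 : Real.log ((n : ℝ) / 4) ≤ (harmonic (K + 1) : ℝ) := by
    refine le_trans ?_ (log_add_one_le_harmonic (K + 1))
    refine Real.log_le_log (by linarith) ?_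
    have : (n : ℝ) ≤ ((4 * K + 3 : ℕ) : ℝ) := by exact_mod_cast hK3
    push_cast at this ⊢
    linarith
  linarith

/-! ### The upper bound -/

/-- `β x = ∑ k < x, (2 k ^ 2 - 3)` -/
def beta : ℕ → ℤ
  | 0 => 0
  | x + 1 => beta x + 2 * (x : ℤ) ^ 2 - 3

lemma beta_le (x : ℕ) : 3 * beta x ≤ 2 * (x : ℤ) ^ 3 := by
  induction x with
  | zero => simp [beta]
  | succ x ih =>
    rw [beta]
    push_cast
    nlinarith [sq_nonneg (x : ℤ), (Nat.cast_nonneg x : (0 : ℤ) ≤ x)]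

lemma beta_nonneg (x : ℕ) (hx : 3 ≤ x) : 0 ≤ beta x := by
  induction x, hx using Nat.le_induction with
  | base => decide
  | succ x hx ih =>
    rw [beta]
    have : (3 : ℤ) ≤ x := by exact_mod_cast hx
    nlinarith

/-- the entries: phase `0` (small), `1` and `2` (big) -/
def ent (K X i : ℤ) (b : ℤ) (p : ℕ) : ℤ :=
  if p = 0 then X ^ 2 - i
  else if p = 1 then K + b - 2 * (X + 1) * i
  else K + b - 2 * (X + 1) * i + X ^ 2 - i - 1

/-- the parameter attached to the position `(i, j)` (indices from `0`) -/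
def xx (n i j : ℕ) : ℕ := 2 * n + 1 + (n + 1) / 3 + (j + 2 * i) / 3 - i

/-- the triangle (indices from `0`) -/
def T (n i j : ℕ) : ℤ :=
  ent (24 * (n : ℤ) ^ 2) (xx n i j) i (beta (xx n i j)) ((j + 2 * i) % 3)

lemma xx_lb {n i j : ℕ} (h : i + j + 1 ≤ n) : 2 * n + 1 ≤ xx n i j := by
  unfold xx; omega

lemma xx_ub {n i j : ℕ} (h : i + j + 1 ≤ n) : 3 * xx n i j ≤ 8 * n + 3 := by
  unfold xx; omega

/-- all the big entries with parameter `x` lie in `[lo x, hi x]` -/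
def lo (n x : ℕ) : ℤ := beta x - 2 * ((x : ℤ) + 1) * ((n : ℤ) - 1)

def hi (_n x : ℕ) : ℤ := beta x + (x : ℤ) ^ 2 - 1

lemma hi_lt_lo_succ {n x : ℕ} (hn : 1 ≤ n) (hx : 2 * n + 1 ≤ x) : hi n x < lo n (x + 1) := by
  unfold hi lo
  rw [beta]
  have h1 : 2 * (n : ℤ) + 1 ≤ x := by exact_mod_cast hx
  have h2 : (1 : ℤ) ≤ n := by exact_mod_cast hn
  push_cast
  nlinarith

lemma lo_le_hi {n x : ℕ} (hn : 1 ≤ n) (hx : 1 ≤ x) : lo n x ≤ hi n x := by
  unfold hi lo
  have h2 : (1 : ℤ) ≤ n := by exact_mod_cast hn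
  have h3 : (1 : ℤ) ≤ x := by exact_mod_cast hx
  nlinarith [mul_nonneg (by linarith : (0 : ℤ) ≤ (x : ℤ) + 1) (by linarith : (0 : ℤ) ≤ (n : ℤ) - 1)]

lemma hi_lt_lo {n x y : ℕ} (hn : 1 ≤ n) (hx : 2 * n + 1 ≤ x) (hxy : x < y) : hi n x < lo n y := by
  induction y, (hxy : x + 1 ≤ y) using Nat.le_induction with
  | base => exact hi_lt_lo_succ hn hx
  | succ y hy ih =>
    exact lt_of_lt_of_le ih (le_trans (lo_le_hi hn (by omega)) (hi_lt_lo_succ hn (by omega)).le)

/-- every entry is positive; the small ones are at most `16 n ^ 2`, the big ones are larger -/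
lemma small_bounds {n x i : ℕ} (hi' : i + 1 ≤ n) (hx : 2 * n + 1 ≤ x) (hx2 : 3 * x ≤ 8 * n + 3) :
    0 < (x : ℤ) ^ 2 - i ∧ (x : ℤ) ^ 2 - i ≤ 16 * (n : ℤ) ^ 2 := by
  have h1 : (i : ℤ) + 1 ≤ n := by exact_mod_cast hi'
  have h2 : 2 * (n : ℤ) + 1 ≤ x := by exact_mod_cast hx
  have h3 : 3 * (x : ℤ) ≤ 8 * n + 3 := by exact_mod_cast hx2
  have h4 : (0 : ℤ) ≤ i := Nat.cast_nonneg i
  constructor
  · nlinarith
  · nlinarith

lemma lo_big {n x : ℕ} (hn : 1 ≤ n) (hx : 2 * n + 1 ≤ x) (hx2 : 3 * x ≤ 8 * n + 3) :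
    16 * (n : ℤ) ^ 2 < 24 * (n : ℤ) ^ 2 + lo n x := by
  have h1 : (1 : ℤ) ≤ n := by exact_mod_cast hn
  have h2 : 2 * (n : ℤ) + 1 ≤ x := by exact_mod_cast hx
  have h3 : 3 * (x : ℤ) ≤ 8 * n + 3 := by exact_mod_cast hx2
  have h4 := beta_nonneg x (by omega)
  unfold lo
  nlinarith [mul_nonneg (by linarith : (0 : ℤ) ≤ (n : ℤ) - 1) (by linarith : (0 : ℤ) ≤ 8 * (n : ℤ) + 3 - 3 * x)]

lemma hi_le {n x : ℕ} (hn : 1 ≤ n) (hx2 : 3 * x ≤ 8 * n + 3) :
    24 * (n : ℤ) ^ 2 + hi n x ≤ 75 * (n : ℤ) ^ 3 := by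
  have h1 : (1 : ℤ) ≤ n := by exact_mod_cast hn
  have h3 : 3 * (x : ℤ) ≤ 8 * n + 3 := by exact_mod_cast hx2
  have h4 := beta_le x
  have h0 : (0 : ℤ) ≤ x := Nat.cast_nonneg x
  have h5 : 3 * (x : ℤ) ≤ 11 * n := by linarith
  have h6 : 9 * (x : ℤ) ^ 2 ≤ 121 * (n : ℤ) ^ 2 := by nlinarith
  have h7 : 27 * (x : ℤ) ^ 3 ≤ 1331 * (n : ℤ) ^ 3 := by nlinarith [mul_nonneg h0 (sq_nonneg (n : ℤ))]
  have h8 : (n : ℤ) ^ 2 ≤ (n : ℤ) ^ 3 := by nlinarith [sq_nonneg (n : ℤ)]
  unfold hi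
  nlinarith

lemma T_phase0 {n i j : ℕ} (hp : (j + 2 * i) % 3 = 0) :
    T n i j = (xx n i j : ℤ) ^ 2 - i := by
  unfold T ent; simp [hp]

lemma T_phase1 {n i j : ℕ} (hp : (j + 2 * i) % 3 = 1) :
    T n i j = 24 * (n : ℤ) ^ 2 + beta (xx n i j) - 2 * ((xx n i j : ℤ) + 1) * i := by
  unfold T ent; simp [hp]

lemma T_phase2 {n i j : ℕ} (hp : (j + 2 * i) % 3 = 2) :
    T n i j = 24 * (n : ℤ) ^ 2 + beta (xx n i j) - 2 * ((xx n i j : ℤ) + 1) * i +
      (xx n i j : ℤ) ^ 2 - i - 1 := by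
  unfold T ent; simp [hp]

lemma big_bounds1 {n x i : ℕ} (hi' : i + 1 ≤ n) :
    lo n x ≤ beta x - 2 * ((x : ℤ) + 1) * i ∧ beta x - 2 * ((x : ℤ) + 1) * i ≤ beta x := by
  have h1 : (i : ℤ) + 1 ≤ n := by exact_mod_cast hi'
  have h4 : (0 : ℤ) ≤ i := Nat.cast_nonneg i
  have h5 : (0 : ℤ) ≤ x := Nat.cast_nonneg x
  unfold lo
  constructor
  · nlinarith
  · nlinarith

lemma big_bounds2 {n x i : ℕ} (hi' : i + 1 ≤ n) (hx : 2 * n + 1 ≤ x) :
    beta x < beta x - 2 * ((x : ℤ) + 1) * i + (x : ℤ) ^ 2 - i - 1 ∧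
      beta x - 2 * ((x : ℤ) + 1) * i + (x : ℤ) ^ 2 - i - 1 ≤ hi n x := by
  have h1 : (i : ℤ) + 1 ≤ n := by exact_mod_cast hi'
  have h2 : 2 * (n : ℤ) + 1 ≤ x := by exact_mod_cast hx
  have h4 : (0 : ℤ) ≤ i := Nat.cast_nonneg i
  have h5 : (0 : ℤ) ≤ x := Nat.cast_nonneg x
  unfold hi
  constructor
  · nlinarith
  · nlinarith

lemma beta_ge_lo {n x : ℕ} (hn : 1 ≤ n) : lo n x ≤ beta x := by
  have h1 : (1 : ℤ) ≤ n := by exact_mod_cast hn
  have h5 : (0 : ℤ) ≤ x := Nat.cast_nonneg x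
  unfold lo
  nlinarith

/-- A uniform description of the entries. -/
lemma T_cases {n i j : ℕ} (h : i + j + 1 ≤ n) :
    ((j + 2 * i) % 3 = 0 ∧ T n i j = (xx n i j : ℤ) ^ 2 - i ∧ T n i j ≤ 16 * (n : ℤ) ^ 2) ∨
    ((j + 2 * i) % 3 = 1 ∧ T n i j = 24 * (n : ℤ) ^ 2 + beta (xx n i j) -
        2 * ((xx n i j : ℤ) + 1) * i ∧
      24 * (n : ℤ) ^ 2 + lo n (xx n i j) ≤ T n i j ∧
      T n i j ≤ 24 * (n : ℤ) ^ 2 + beta (xx n i j)) ∨
    ((j + 2 * i) % 3 = 2 ∧ T n i j = 24 * (n : ℤ) ^ 2 + beta (xx n i j) -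
        2 * ((xx n i j : ℤ) + 1) * i + (xx n i j : ℤ) ^ 2 - i - 1 ∧
      24 * (n : ℤ) ^ 2 + beta (xx n i j) < T n i j ∧
      T n i j ≤ 24 * (n : ℤ) ^ 2 + hi n (xx n i j)) := by
  have hx := xx_lb h
  have hx2 := xx_ub h
  have h3 : (j + 2 * i) % 3 = 0 ∨ (j + 2 * i) % 3 = 1 ∨ (j + 2 * i) % 3 = 2 := by omega
  rcases h3 with hp | hp | hp
  · left
    refine ⟨hp, T_phase0 hp, ?_⟩
    rw [T_phase0 hp]
    exact (small_bounds (by omega) hx hx2).2
  · right; left
    have hb := big_bounds1 (n := n) (x := xx n i j) (i := i) (by omega)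
    refine ⟨hp, T_phase1 hp, ?_, ?_⟩
    · rw [T_phase1 hp]; linarith [hb.1]
    · rw [T_phase1 hp]; linarith [hb.2]
  · right; right
    have hb := big_bounds2 (n := n) (x := xx n i j) (i := i) (by omega) hx
    refine ⟨hp, T_phase2 hp, ?_, ?_⟩
    · rw [T_phase2 hp]; linarith [hb.1]
    · rw [T_phase2 hp]; linarith [hb.2]

lemma T_pos {n i j : ℕ} (h : i + j + 1 ≤ n) : 0 < T n i j := by
  have hx := xx_lb h
  have hx2 := xx_ub h
  have hlo := lo_big (n := n) (by omega) hx hx2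
  have hlo2 := beta_ge_lo (n := n) (x := xx n i j) (by omega)
  have hn2 := sq_nonneg (n : ℤ)
  rcases T_cases h with ⟨_, h1, _⟩ | ⟨_, _, h1, _⟩ | ⟨_, _, h1, _⟩
  · rw [h1]; exact (small_bounds (by omega) hx hx2).1
  · linarith
  · linarith

lemma T_le {n i j : ℕ} (h : i + j + 1 ≤ n) : T n i j ≤ 75 * (n : ℤ) ^ 3 := by
  have hx := xx_lb h
  have hx2 := xx_ub h
  have hh := hi_le (n := n) (by omega) hx2
  have hlo := lo_big (n := n) (by omega) hx hx2
  have hlo2 := lo_le_hi (n := n) (x := xx n i j) (by omega) (by omega)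
  rcases T_cases h with ⟨_, _, h1⟩ | ⟨_, _, _, h1⟩ | ⟨_, _, _, h1⟩
  · linarith
  · have h2 : beta (xx n i j) ≤ hi n (xx n i j) := by
      have := big_bounds2 (n := n) (x := xx n i j) (i := i) (by omega) hx
      linarith [this.1, this.2]
    linarith
  · linarith

lemma T_diff {n i j : ℕ} (h : i + j + 2 ≤ n) : T n (i + 1) j = |T n i j - T n i (j + 1)| := by
  have hpos := T_pos (n := n) (i := i + 1) (j := j) (by omega)
  have h3 : (j + 2 * i) % 3 = 0 ∨ (j + 2 * i) % 3 = 1 ∨ (j + 2 * i) % 3 = 2 := by omega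
  rcases h3 with hp | hp | hp
  · -- (small, b) ↦ c
    have e1 : xx n i (j + 1) = xx n i j := by unfold xx; omega
    have e2 : xx n i j = xx n (i + 1) j + 1 := by unfold xx; omega
    have hd : T n (i + 1) j = T n i (j + 1) - T n i j := by
      rw [T_phase2 (i := i + 1) (by omega), T_phase1 (i := i) (j := j + 1) (by omega), T_phase0 hp,
        e1, e2, beta]
      push_cast
      ring
    rw [abs_sub_comm, ← hd, abs_of_pos hpos]
  · -- (b, c) ↦ small
    have e1 : xx n i (j + 1) = xx n i j := by unfold xx; omega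
    have e2 : xx n (i + 1) j = xx n i j := by unfold xx; omega
    have hd : T n (i + 1) j = T n i (j + 1) - T n i j := by
      rw [T_phase0 (i := i + 1) (by omega), T_phase2 (i := i) (j := j + 1) (by omega), T_phase1 hp,
        e1, e2]
      push_cast
      ring
    rw [abs_sub_comm, ← hd, abs_of_pos hpos]
  · -- (c, small) ↦ b
    have e1 : xx n i (j + 1) = xx n i j + 1 := by unfold xx; omega
    have e2 : xx n (i + 1) j = xx n i j := by unfold xx; omega
    have hd : T n (i + 1) j = T n i j - T n i (j + 1) := by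
      rw [T_phase1 (i := i + 1) (by omega), T_phase0 (i := i) (j := j + 1) (by omega), T_phase2 hp,
        e1, e2]
      push_cast
      ring
    rw [← hd, abs_of_pos hpos]

lemma pos_eq_of {n i j i' j' : ℕ} (h : i + j + 1 ≤ n) (h' : i' + j' + 1 ≤ n) (hi : i = i')
    (hx : xx n i j = xx n i' j') (hp : (j + 2 * i) % 3 = (j' + 2 * i') % 3) : i = i' ∧ j = j' := by
  subst hi
  unfold xx at hx
  omega

lemma T_inj {n i j i' j' : ℕ} (h : i + j + 1 ≤ n) (h' : i' + j' + 1 ≤ n)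
    (he : T n i j = T n i' j') : i = i' ∧ j = j' := by
  have hx := xx_lb h
  have hx2 := xx_ub h
  have hx' := xx_lb h'
  have hx2' := xx_ub h'
  have hlo := lo_big (n := n) (by omega) hx hx2
  have hlo' := lo_big (n := n) (by omega) hx' hx2'
  have hbl := beta_ge_lo (n := n) (x := xx n i j) (by omega)
  have hbl' := beta_ge_lo (n := n) (x := xx n i' j') (by omega)
  have hbh : beta (xx n i j) ≤ hi n (xx n i j) := by
    have := big_bounds2 (n := n) (x := xx n i j) (i := i) (by omega) hx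
    linarith [this.1, this.2]
  have hbh' : beta (xx n i' j') ≤ hi n (xx n i' j') := by
    have := big_bounds2 (n := n) (x := xx n i' j') (i := i') (by omega) hx'
    linarith [this.1, this.2]
  have hlt : xx n i j < xx n i' j' → hi n (xx n i j) < lo n (xx n i' j') :=
    fun hh => hi_lt_lo (by omega) hx hh
  have hgt : xx n i' j' < xx n i j → hi n (xx n i' j') < lo n (xx n i j) :=
    fun hh => hi_lt_lo (by omega) hx' hh
  have hi0 : (0 : ℤ) ≤ i := Nat.cast_nonneg i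
  have hi0' : (0 : ℤ) ≤ i' := Nat.cast_nonneg i'
  have hin : (i : ℤ) + 1 ≤ n := by exact_mod_cast (by omega : i + 1 ≤ n)
  have hin' : (i' : ℤ) + 1 ≤ n := by exact_mod_cast (by omega : i' + 1 ≤ n)
  have hX : 2 * (n : ℤ) + 1 ≤ xx n i j := by exact_mod_cast hx
  have hX' : 2 * (n : ℤ) + 1 ≤ xx n i' j' := by exact_mod_cast hx'
  rcases T_cases h with ⟨hp, e, b⟩ | ⟨hp, e, b, b2⟩ | ⟨hp, e, b, b2⟩ <;>
  rcases T_cases h' with ⟨hp', e', b'⟩ | ⟨hp', e', b', b2'⟩ | ⟨hp', e', b', b2'⟩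
  · -- small, small
    rw [e, e'] at he
    rcases lt_trichotomy (xx n i j) (xx n i' j') with hh | hh | hh
    · have : (xx n i j : ℤ) + 1 ≤ xx n i' j' := by exact_mod_cast hh
      nlinarith
    · rw [hh] at he
      have : i = i' := by
        have : (i : ℤ) = i' := by linarith
        exact_mod_cast this
      exact pos_eq_of h h' this hh (by omega)
    · have : (xx n i' j' : ℤ) + 1 ≤ xx n i j := by exact_mod_cast hh
      nlinarith
  · exfalso; linarith
  · exfalso; linarith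
  · exfalso; linarith
  · -- b, b
    rcases lt_trichotomy (xx n i j) (xx n i' j') with hh | hh | hh
    · exfalso; linarith [hlt hh]
    · rw [e, e', hh] at he
      have h1 : ((xx n i' j' : ℤ) + 1) * ((i : ℤ) - i') = 0 := by linarith
      have h2 : (i : ℤ) - i' = 0 := by
        rcases mul_eq_zero.1 h1 with h3 | h3
        · exfalso; linarith
        · exact h3
      have : i = i' := by
        have : (i : ℤ) = i' := by linarith
        exact_mod_cast this
      exact pos_eq_of h h' this hh (by omega)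
    · exfalso; linarith [hgt hh]
  · -- b, c
    exfalso
    rcases lt_trichotomy (xx n i j) (xx n i' j') with hh | hh | hh
    · linarith [hlt hh]
    · rw [hh] at b2; linarith
    · linarith [hgt hh]
  · exfalso; linarith
  · -- c, b
    exfalso
    rcases lt_trichotomy (xx n i j) (xx n i' j') with hh | hh | hh
    · linarith [hlt hh]
    · rw [hh] at b; linarith
    · linarith [hgt hh]
  · -- c, c
    rcases lt_trichotomy (xx n i j) (xx n i' j') with hh | hh | hh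
    · exfalso; linarith [hlt hh]
    · rw [e, e', hh] at he
      have h1 : (2 * (xx n i' j' : ℤ) + 3) * ((i : ℤ) - i') = 0 := by linarith
      have h2 : (i : ℤ) - i' = 0 := by
        rcases mul_eq_zero.1 h1 with h3 | h3
        · exfalso; linarith
        · exact h3
      have : i = i' := by
        have : (i : ℤ) = i' := by linarith
        exact_mod_cast this
      exact pos_eq_of h h' this hh (by omega)
    · exfalso; linarith [hgt hh]

/-- The explicit triangle, with rows and columns numbered from `1`. -/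
def A (n i j : ℕ) : ℕ := (T n (i - 1) (j - 1)).toNat

lemma A_cast {n i j : ℕ} (h : InTri n i j) : (A n i j : ℤ) = T n (i - 1) (j - 1) := by
  obtain ⟨h1, h2, h3⟩ := h
  unfold A
  exact Int.toNat_of_nonneg (T_pos (by omega)).le

lemma A_tad (n : ℕ) : IsDistinctTAD n (A n) := by
  refine ⟨?_, ?_, ?_⟩
  · intro i j h
    have h' := A_cast h
    obtain ⟨h1, h2, h3⟩ := h
    have := T_pos (n := n) (i := i - 1) (j := j - 1) (by omega)
    omega
  · intro i j h1 h2 h3 h4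
    rw [A_cast (⟨by omega, by omega, by omega⟩ : InTri n (i + 1) j),
      A_cast (⟨by omega, by omega, by omega⟩ : InTri n i j),
      A_cast (⟨by omega, by omega, by omega⟩ : InTri n i (j + 1))]
    have := T_diff (n := n) (i := i - 1) (j := j - 1) (by omega)
    have e1 : i - 1 + 1 = i + 1 - 1 := by omega
    have e2 : j - 1 + 1 = j + 1 - 1 := by omega
    rw [e1, e2] at this
    exact this
  · intro i j i' j' h h' he
    have he' : (A n i j : ℤ) = A n i' j' := by exact_mod_cast he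
    rw [A_cast h, A_cast h'] at he'
    obtain ⟨h1, h2, h3⟩ := h
    obtain ⟨h1', h2', h3'⟩ := h'
    have := T_inj (n := n) (i := i - 1) (j := j - 1) (i' := i' - 1) (j' := j' - 1)
      (by omega) (by omega) he'
    omega

lemma A_le {n i j : ℕ} (h : InTri n i j) : A n i j ≤ 75 * n ^ 3 := by
  have h' := A_cast h
  obtain ⟨h1, h2, h3⟩ := h
  have := T_le (n := n) (i := i - 1) (j := j - 1) (by omega)
  have h4 : (A n i j : ℤ) ≤ ((75 * n ^ 3 : ℕ) : ℤ) := by
    push_cast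
    linarith
  exact_mod_cast h4

/-- there is an element of `LargestEntries n` that is at most `75 n ^ 3` -/
lemma exists_le (n : ℕ) (hn : 1 ≤ n) : ∃ m ∈ LargestEntries n, m ≤ 75 * n ^ 3 := by
  classical
  set P : Finset (ℕ × ℕ) := ((Finset.Icc 1 n) ×ˢ (Finset.Icc 1 n)).filter
    (fun p => p.1 + p.2 ≤ n + 1) with hP
  have hmem : ∀ p : ℕ × ℕ, p ∈ P ↔ InTri n p.1 p.2 := by
    intro p
    rw [hP, Finset.mem_filter, Finset.mem_product, Finset.mem_Icc, Finset.mem_Icc]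
    unfold InTri
    omega
  have hne : P.Nonempty := ⟨(1, 1), (hmem _).2 ⟨le_rfl, le_rfl, by omega⟩⟩
  obtain ⟨p, hp, hmax⟩ := Finset.exists_max_image P (fun p => A n p.1 p.2) hne
  refine ⟨A n p.1 p.2, ⟨A n, A_tad n, ⟨p.1, p.2, (hmem _).1 hp, rfl⟩, ?_⟩, A_le ((hmem _).1 hp)⟩
  intro i j h
  exact hmax (i, j) ((hmem (i, j)).2 h)

/-- For every `n ≥ 1` distinct TADs of order `n` exist, and the least possible largest entry `M n`
satisfies
`n (n-1)/4 * (1 + ∑_{k=0}^{n-2} (((n-k)(n-k-1))/(n(n-1)))^2/(k+2)) ≤ M n` (for `n ≥ 2`),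
`n (n-1)/4 * (log (n/4) - 1) ≤ M n` and `M n ≤ 75 n ^ 3`. -/
theorem result (n : ℕ) (hn : 1 ≤ n) :
    (LargestEntries n).Nonempty ∧
    (2 ≤ n → (n : ℝ) * ((n : ℝ) - 1) / 4 * (1 + ∑ k ∈ range (n - 1),
      ((((n : ℝ) - k) * ((n : ℝ) - k - 1)) / ((n : ℝ) * ((n : ℝ) - 1))) ^ 2 / ((k : ℝ) + 2)) ≤ M n) ∧
    (n : ℝ) * ((n : ℝ) - 1) / 4 * (Real.log ((n : ℝ) / 4) - 1) ≤ M n ∧
    M n ≤ 75 * n ^ 3 := by
  obtain ⟨m, hm, hle⟩ := exists_le n hn
  have hne : (LargestEntries n).Nonempty := ⟨m, hm⟩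
  have hM : M n ∈ LargestEntries n := Nat.sInf_mem hne
  obtain ⟨a, ha, _, hmax⟩ := hM
  refine ⟨hne, fun h2 => lower_sum h2 ha hmax, ?_, le_trans (Nat.sInf_le hm) hle⟩
  rcases Nat.lt_or_ge n 2 with h | h
  · have : n = 1 := by omega
    subst this
    simp
  · exact lower_log h ha hmax

end Pool.Agent.Results.MP_5d3fca_co.GrowthBounds
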